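import Pool.Agent.Helper45.GMap

/-!
The Hausdorff dimension of the graph.
-/

open MeasureTheory Set Function Filter Topology Metric
open scoped ENNReal NNReal unitInterval

namespace Pool.Agent.Helper45.Graph

lemma log_le_two_sqrt {x : ℝ} (hx : 0 < x) : Real.log x ≤ 2 * √x := by
  have h1 : Real.log x = 2 * Real.log (√x) := by
    rw [Real.log_sqrt hx.le]; ring
  have h2 := Real.log_le_sub_one_of_pos (Real.sqrt_pos.2 hx)
  rw [h1]; linarith

lemma num_ineq {s : ℝ} (hs : s < 2) :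
    ∃ l0 : ℕ, ∀ l ≥ l0, 9 * (3 : ℝ)⁻¹ ^ (l + (l - Nat.sqrt l)) ≤ (aa (l + 1)) ^ s := by
  have L3 : 0 < Real.log 3 := Real.log_pos (by norm_num)
  have L9 : 0 < Real.log 9 := Real.log_pos (by norm_num)
  set c : ℝ := (2 - s) * Real.log 3 with hc
  have hcpos : 0 < c := mul_pos (by linarith) L3
  set C1 : ℝ := Real.log 3 + 8 with hC1
  set C2 : ℝ := Real.log 9 + 2 * Real.log 3 + 16 with hC2
  obtain ⟨n0, hn0⟩ := exists_nat_gt (max 1 ((C1 + C2) / c))
  refine ⟨n0 ^ 2, fun l hl => ?_⟩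
  have hlr : (n0 : ℝ) ^ 2 ≤ l := by exact_mod_cast hl
  set t : ℝ := √(l : ℝ) with ht
  have ht0 : 0 ≤ t := Real.sqrt_nonneg _
  have htt : t * t = l := Real.mul_self_sqrt (Nat.cast_nonneg l)
  have hn0t : (n0 : ℝ) ≤ t := Real.le_sqrt_of_sq_le hlr
  have h1t : 1 ≤ t := le_trans ((le_max_left _ _).trans hn0.le) hn0t
  have h2t : (C1 + C2) / c ≤ t := le_trans ((le_max_right _ _).trans hn0.le) hn0t
  have h2t' : C1 + C2 ≤ t * c := by rwa [div_le_iff₀ hcpos] at h2t
  have key : C1 * t + C2 ≤ c * l := by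
    have hC2p : 0 ≤ C2 := by positivity
    have e1 : (C1 + C2) * t ≤ t * c * t := mul_le_mul_of_nonneg_right h2t' ht0
    have e2 : t * c * t = c * l := by rw [← htt]; ring
    nlinarith
  have hsq : (Nat.sqrt l : ℝ) ≤ t := Real.nat_sqrt_le_real_sqrt
  have hsql : Nat.sqrt l ≤ l := Nat.sqrt_le_self l
  have hlog : Real.log (((l : ℝ) + 2) * ((l : ℝ) + 3)) ≤ 4 * t + 8 := by
    have hl0 : (0 : ℝ) ≤ l := Nat.cast_nonneg l
    have hl2 : (0 : ℝ) < (l : ℝ) + 2 := by positivity
    have hl3 : (0 : ℝ) < (l : ℝ) + 3 := by positivity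
    rw [Real.log_mul hl2.ne' hl3.ne']
    have e1 : Real.log ((l : ℝ) + 2) ≤ Real.log ((l : ℝ) + 3) :=
      Real.log_le_log hl2 (by linarith)
    have e2 := log_le_two_sqrt hl3
    have e3 : √((l : ℝ) + 3) ≤ t + 2 := by
      rw [Real.sqrt_le_left (by linarith)]
      nlinarith
    linarith
  have haa : aa (l + 1) = (3 : ℝ)⁻¹ ^ (l + 1) * (1 / (((l : ℝ) + 2) * ((l : ℝ) + 3))) := by
    unfold aa
    push_cast
    ring
  have hl2 : (0 : ℝ) < ((l : ℝ) + 2) * ((l : ℝ) + 3) := by positivity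
  have hloga : Real.log (aa (l + 1)) =
      -((l : ℝ) + 1) * Real.log 3 - Real.log (((l : ℝ) + 2) * ((l : ℝ) + 3)) := by
    rw [haa, Real.log_mul (by positivity) (by positivity), Real.log_pow, Real.log_inv, one_div,
      Real.log_inv]
    push_cast
    ring
  rw [← Real.log_le_log_iff (by positivity) (Real.rpow_pos_of_pos (aa_pos _) _),
    Real.log_rpow (aa_pos _), Real.log_mul (by norm_num) (by positivity), Real.log_pow,
    Real.log_inv, hloga]
  push_cast [Nat.cast_sub hsql]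
  have hls : s * Real.log (((l : ℝ) + 2) * ((l : ℝ) + 3)) ≤ 8 * t + 16 := by
    have e0 : 0 ≤ Real.log (((l : ℝ) + 2) * ((l : ℝ) + 3)) := by
      apply Real.log_nonneg
      have : (0 : ℝ) ≤ l := Nat.cast_nonneg l
      nlinarith
    calc s * Real.log (((l : ℝ) + 2) * ((l : ℝ) + 3)) ≤ 2 * (4 * t + 8) :=
          mul_le_mul hs.le hlog e0 (by norm_num)
      _ = 8 * t + 16 := by ring
  have e4 : (Nat.sqrt l : ℝ) * Real.log 3 ≤ t * Real.log 3 :=
    mul_le_mul_of_nonneg_right hsq L3.le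
  have e5 : s * Real.log 3 ≤ 2 * Real.log 3 := mul_le_mul_of_nonneg_right hs.le L3.le
  have e6 : c * l = 2 * l * Real.log 3 - s * l * Real.log 3 := by rw [hc]; ring
  have e7 : C1 * t = t * Real.log 3 + 8 * t := by rw [hC1]; ring
  nlinarith

lemma aa_tendsto : Tendsto aa atTop (𝓝 0) := by
  have h2 : Tendsto (fun n : ℕ => (3 : ℝ)⁻¹ ^ n) atTop (𝓝 0) :=
    tendsto_pow_atTop_nhds_zero_of_lt_one (by norm_num) (by norm_num)
  apply squeeze_zero (fun l => (aa_pos l).le) _ h2
  intro l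
  unfold aa
  have h3 : (1 : ℝ) / (((l : ℝ) + 1) * ((l : ℝ) + 2)) ≤ 1 := by
    rw [div_le_one (by positivity)]
    have : (0 : ℝ) ≤ l := Nat.cast_nonneg l
    nlinarith
  have h4 : (0 : ℝ) ≤ (3 : ℝ)⁻¹ ^ l := by positivity
  nlinarith [mul_le_mul_of_nonneg_left h3 h4]

/-- the parametrisation of the graph -/
noncomputable def gam (z : Om) : ℝ × ℝ := (HH z, HH (Dl z))

lemma gam_continuous : Continuous gam :=
  HH_continuous.prodMk (HH_continuous.comp Dl_continuous)

/-- the measure on the graph -/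
noncomputable def nu : Measure (ℝ × ℝ) := (PP ℕ).map gam

instance : IsProbabilityMeasure nu :=
  Measure.isProbabilityMeasure_map gam_continuous.aemeasurable

lemma piece_le (l k1 k2 : ℕ) :
    PP ℕ {z | kap l z = k1 ∧ kap l (Dl z) = k2} ≤ (3 : ℝ≥0∞)⁻¹ ^ (l + (l - Nat.sqrt l)) := by
  classical
  by_cases h : ∃ z0, kap l z0 = k1 ∧ kap l (Dl z0) = k2
  · obtain ⟨z0, rfl, rfl⟩ := h
    let s : Finset ℕ := Finset.range l ∪ (Finset.Ico (Nat.sqrt l) l).image sg
    have hs : s.card = l + (l - Nat.sqrt l) := by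
      rw [Finset.card_union_of_disjoint, Finset.card_range,
        Finset.card_image_of_injective _ sg_inj, Nat.card_Ico]
      rw [Finset.disjoint_left]
      intro a ha ha'
      simp only [Finset.mem_range, Finset.mem_image, Finset.mem_Ico] at ha ha'
      obtain ⟨j, ⟨hj1, hj2⟩, rfl⟩ := ha'
      have h1 : l < (Nat.sqrt l + 1) ^ 2 := by
        have := Nat.lt_succ_sqrt l
        rw [pow_two]; exact this
      have h2 : (Nat.sqrt l + 1) ^ 2 ≤ (j + 1) ^ 2 := Nat.pow_le_pow_left (by omega) 2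
      unfold sg at ha
      omega
    calc PP ℕ {z | kap l z = kap l z0 ∧ kap l (Dl z) = kap l (Dl z0)}
        ≤ PP ℕ {z | ∀ i ∈ s, z i = z0 i} := by
          apply measure_mono
          rintro z ⟨hz1, hz2⟩ i hi
          simp only [s, Finset.mem_union, Finset.mem_range, Finset.mem_image,
            Finset.mem_Ico] at hi
          rcases hi with hi | ⟨j, ⟨_, hj⟩, rfl⟩
          · exact kap_inj hz1 i hi
          · exact kap_inj hz2 j hj
      _ = _ := by rw [PP_agree, hs]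
  · have : {z | kap l z = k1 ∧ kap l (Dl z) = k2} = ∅ := by
      ext z
      simp only [Set.mem_ofPred_eq, mem_empty_iff_false, iff_false]
      exact fun hz => h ⟨z, hz⟩
    rw [this]; simp

lemma kap_close_of_HH {l : ℕ} {z y : Om} (h : |HH z - HH y| < aa l) :
    kap l z ≤ kap l y + 1 := by
  by_contra hc
  have h1 := HH_sep (l := l) (z := y) (y := z) (by omega)
  have h2 := le_abs_self (HH z - HH y)
  linarith

lemma nu_le_of_ediam {l : ℕ} {S : Set (ℝ × ℝ)} (hS : ediam S < ENNReal.ofReal (aa l)) :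
    nu S ≤ 9 * (3 : ℝ≥0∞)⁻¹ ^ (l + (l - Nat.sqrt l)) := by
  classical
  rw [← ediam_closure] at hS
  refine le_trans (measure_mono subset_closure) ?_
  unfold nu
  rw [Measure.map_apply gam_continuous.measurable isClosed_closure.measurableSet]
  by_cases hne : ∃ z0, gam z0 ∈ closure S
  · obtain ⟨z0, hz0⟩ := hne
    have hsub : gam ⁻¹' closure S ⊆ ⋃ p ∈ (Finset.range 3 ×ˢ Finset.range 3 : Finset (ℕ × ℕ)),
        {z | kap l z = kap l z0 + p.1 - 1 ∧ kap l (Dl z) = kap l (Dl z0) + p.2 - 1} := by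
      intro z hz
      have hd : dist (gam z) (gam z0) < aa l := by
        have h1 : edist (gam z) (gam z0) < ENNReal.ofReal (aa l) :=
          lt_of_le_of_lt (edist_le_ediam_of_mem hz hz0) hS
        rw [edist_dist] at h1
        exact (ENNReal.ofReal_lt_ofReal_iff (aa_pos l)).1 h1
      rw [Prod.dist_eq, max_lt_iff] at hd
      obtain ⟨hd1, hd2⟩ := hd
      simp only [gam, Real.dist_eq] at hd1 hd2
      have a1 := kap_close_of_HH hd1
      have a2 := kap_close_of_HH (by rwa [abs_sub_comm] at hd1 : |HH z0 - HH z| < aa l)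
      have a3 := kap_close_of_HH hd2
      have a4 := kap_close_of_HH
        (by rwa [abs_sub_comm] at hd2 : |HH (Dl z0) - HH (Dl z)| < aa l)
      simp only [mem_iUnion, Finset.mem_product, Finset.mem_range, Set.mem_ofPred_eq, exists_prop]
      refine ⟨(kap l z + 1 - kap l z0, kap l (Dl z) + 1 - kap l (Dl z0)), ?_, ?_⟩
      · simp only
        constructor <;> omega
      · simp only
        constructor <;> omega
    calc PP ℕ (gam ⁻¹' closure S)
        ≤ PP ℕ (⋃ p ∈ (Finset.range 3 ×ˢ Finset.range 3 : Finset (ℕ × ℕ)),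
        {z | kap l z = kap l z0 + p.1 - 1 ∧ kap l (Dl z) = kap l (Dl z0) + p.2 - 1}) :=
          measure_mono hsub
      _ ≤ ∑ p ∈ (Finset.range 3 ×ˢ Finset.range 3 : Finset (ℕ × ℕ)),
          PP ℕ {z | kap l z = kap l z0 + p.1 - 1 ∧ kap l (Dl z) = kap l (Dl z0) + p.2 - 1} :=
          measure_biUnion_finset_le _ _
      _ ≤ ∑ _p ∈ (Finset.range 3 ×ˢ Finset.range 3 : Finset (ℕ × ℕ)),
          (3 : ℝ≥0∞)⁻¹ ^ (l + (l - Nat.sqrt l)) :=
          Finset.sum_le_sum (fun p _ => piece_le l _ _)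
      _ = 9 * (3 : ℝ≥0∞)⁻¹ ^ (l + (l - Nat.sqrt l)) := by
          rw [Finset.sum_const, Finset.card_product]
          simp
  · have : gam ⁻¹' closure S = ∅ := by
      ext z
      simp only [mem_preimage, mem_empty_iff_false, iff_false]
      exact fun hz => hne ⟨z, hz⟩
    rw [this]; simp

lemma ofReal_pow_inv (n : ℕ) : 9 * (3 : ℝ≥0∞)⁻¹ ^ n = ENNReal.ofReal (9 * (3 : ℝ)⁻¹ ^ n) := by
  rw [ENNReal.ofReal_mul (by norm_num), ENNReal.ofReal_pow (by positivity),
    ENNReal.ofReal_inv_of_pos (by norm_num)]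
  simp

lemma nu_le_hausdorff {s : ℝ≥0} (hs : s < 2) : nu ≤ μH[s] := by
  classical
  obtain ⟨l0, hl0⟩ := num_ineq (show (s : ℝ) < 2 by exact_mod_cast hs)
  have hpos : (0 : ℝ≥0∞) < ENNReal.ofReal (aa l0 / 2) :=
    ENNReal.ofReal_pos.2 (half_pos (aa_pos l0))
  refine Measure.le_hausdorffMeasure _ _ _ hpos ?_
  intro S hS
  have hfin : ediam S ≠ ∞ := ne_top_of_le_ne_top ENNReal.ofReal_ne_top hS
  have hSl0 : ediam S < ENNReal.ofReal (aa l0) := by
    refine lt_of_le_of_lt hS ?_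
    rw [ENNReal.ofReal_lt_ofReal_iff (aa_pos l0)]
    linarith [aa_pos l0]
  rcases eq_or_ne (ediam S) 0 with h0 | h0
  · -- zero diameter
    have h1 : ∀ l, nu S ≤ ENNReal.ofReal (9 * (3 : ℝ)⁻¹ ^ l) := by
      intro l
      have h2 := nu_le_of_ediam (l := l) (S := S)
        (by rw [h0]; exact ENNReal.ofReal_pos.2 (aa_pos l))
      refine h2.trans ?_
      rw [ofReal_pow_inv]
      apply ENNReal.ofReal_le_ofReal
      have : (3 : ℝ)⁻¹ ^ (l + (l - Nat.sqrt l)) ≤ (3 : ℝ)⁻¹ ^ l :=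
        pow_le_pow_of_le_one (by norm_num) (by norm_num) (by omega)
      linarith
    have h3 : Tendsto (fun l : ℕ => ENNReal.ofReal (9 * (3 : ℝ)⁻¹ ^ l)) atTop (𝓝 0) := by
      have h4 : Tendsto (fun n : ℕ => 9 * (3 : ℝ)⁻¹ ^ n) atTop (𝓝 0) := by
        simpa using (tendsto_pow_atTop_nhds_zero_of_lt_one (r := (3 : ℝ)⁻¹)
          (by norm_num) (by norm_num)).const_mul 9
      have h5 := (ENNReal.continuous_ofReal.tendsto 0).comp h4
      rw [ENNReal.ofReal_zero] at h5
      exact h5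
    have h6 : nu S ≤ 0 := ge_of_tendsto' h3 h1
    exact h6.trans (zero_le)
  · -- positive diameter
    set d : ℝ := (ediam S).toReal with hd
    have hdpos : 0 < d := ENNReal.toReal_pos h0 hfin
    have hdS : ediam S = ENNReal.ofReal d := (ENNReal.ofReal_toReal hfin).symm
    have hex : ∃ n, l0 ≤ n ∧ aa n ≤ d := by
      obtain ⟨N, hN⟩ := Filter.eventually_atTop.1 (aa_tendsto.eventually (gt_mem_nhds hdpos))
      exact ⟨max l0 N, le_max_left _ _, (hN _ (le_max_right _ _)).le⟩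
    let n := Nat.find hex
    obtain ⟨hn1, hn2⟩ : l0 ≤ n ∧ aa n ≤ d := Nat.find_spec hex
    have hdl0 : d < aa l0 := by
      rw [hdS, ENNReal.ofReal_lt_ofReal_iff (aa_pos l0)] at hSl0
      exact hSl0
    have hnl0 : l0 < n := by
      rcases hn1.eq_or_lt with h | h
      · rw [← h] at hn2; linarith
      · exact h
    have hmin : d < aa (n - 1) := by
      have := Nat.find_min hex (m := n - 1) (by omega)
      push Not at this
      exact this (by omega)
    have h1 := nu_le_of_ediam (l := n - 1) (S := S)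
      (by rw [hdS, ENNReal.ofReal_lt_ofReal_iff (aa_pos _)]; exact hmin)
    refine h1.trans ?_
    rw [ofReal_pow_inv, hdS, ENNReal.ofReal_rpow_of_pos hdpos]
    apply ENNReal.ofReal_le_ofReal
    refine (hl0 (n - 1) (by omega)).trans ?_
    have hn : n - 1 + 1 = n := by omega
    rw [hn]
    exact Real.rpow_le_rpow (aa_pos n).le hn2 s.coe_nonneg

/-- the graph of the interval map -/
lemma gam_mem (z : Om) : gam z ∈ range (fun x : I => ((x : ℝ), (ff x : ℝ))) := by
  refine ⟨HI z, ?_⟩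
  change ((HI z : ℝ), (ff (HI z) : ℝ)) = gam z
  rw [ff_HI]
  rfl

lemma nu_graph : nu (range (fun x : I => ((x : ℝ), (ff x : ℝ)))) = 1 := by
  have hc : IsCompact (range (fun x : I => ((x : ℝ), (ff x : ℝ)))) := by
    apply isCompact_range
    exact continuous_subtype_val.prodMk (continuous_subtype_val.comp ff_continuous)
  unfold nu
  rw [Measure.map_apply gam_continuous.measurable hc.isClosed.measurableSet]
  have : gam ⁻¹' (range (fun x : I => ((x : ℝ), (ff x : ℝ)))) = univ := by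
    ext z
    simp only [mem_preimage, mem_univ, iff_true]
    exact gam_mem z
  rw [this, measure_univ]

theorem two_le_dimH : 2 ≤ dimH (range (fun x : I => ((x : ℝ), (ff x : ℝ)))) := by
  refine le_of_forall_lt ?_
  intro c hc
  obtain ⟨s, hs1, hs2⟩ := ENNReal.lt_iff_exists_nnreal_btwn.1 hc
  refine hs1.trans_le ?_
  apply le_dimH_of_hausdorffMeasure_ne_zero
  have h1 : nu (range (fun x : I => ((x : ℝ), (ff x : ℝ)))) ≤
      μH[s] (range (fun x : I => ((x : ℝ), (ff x : ℝ)))) :=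
    nu_le_hausdorff (by exact_mod_cast hs2) _
  rw [nu_graph] at h1
  intro h
  rw [h] at h1
  simp at h1

end Pool.Agent.Helper45.Graph
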