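import Pool.Agent.Helper45.GEntDefs

/-!
Kolmogorov-Sinai entropy, and its vanishing for maps almost all of whose points are periodic.
-/

open MeasureTheory Set Function Filter Topology
open scoped ENNReal

namespace Pool.Agent.Helper45.Graph

lemma negMulLog_le_one_sub {x : ℝ} (hx : 0 ≤ x) : Real.negMulLog x ≤ 1 - x := by
  rcases hx.eq_or_lt with rfl | hx
  · simp
  · have h := Real.one_sub_inv_le_log_of_pos hx
    have h2 : x * (1 - x⁻¹) ≤ x * Real.log x := mul_le_mul_of_nonneg_left h hx.le
    have h3 : x * (1 - x⁻¹) = x - 1 := by field_simp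
    unfold Real.negMulLog
    linarith

lemma negMulLog_add_le {a b : ℝ} (ha : 0 ≤ a) (hb : 0 ≤ b) :
    Real.negMulLog (a + b) ≤ Real.negMulLog a + Real.negMulLog b := by
  rcases ha.eq_or_lt with rfl | ha
  · simp
  rcases hb.eq_or_lt with rfl | hb
  · simp
  unfold Real.negMulLog
  have h1 : Real.log a ≤ Real.log (a + b) := Real.log_le_log ha (by linarith)
  have h2 : Real.log b ≤ Real.log (a + b) := Real.log_le_log hb (by linarith)
  nlinarith [mul_le_mul_of_nonneg_left h1 ha.le, mul_le_mul_of_nonneg_left h2 hb.le]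

lemma negMulLog_le_of_pos {b K : ℝ} (hb : 0 ≤ b) (hK : 0 < K) :
    Real.negMulLog b ≤ b * Real.log K + 1 / K := by
  rcases hb.eq_or_lt with rfl | hb
  · simp; positivity
  have h := negMulLog_le_one_sub (x := b * K) (by positivity)
  unfold Real.negMulLog at h ⊢
  rw [Real.log_mul hb.ne' hK.ne'] at h
  have h2 : K * (-b * Real.log b) ≤ K * (b * Real.log K + 1 / K) := by
    have : K * (b * Real.log K + 1 / K) = K * b * Real.log K + 1 := by field_simp
    rw [this]
    nlinarith [mul_pos hb hK]
  exact le_of_mul_le_mul_left h2 hK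

section

variable {X : Type*} [MeasurableSpace X] {μ : Measure X} [IsProbabilityMeasure μ] {T : X → X}

lemma joinEntropy_nonneg {k : ℕ} (P : X → Fin k) (n : ℕ) : 0 ≤ joinEntropy μ T P n :=
  Finset.sum_nonneg (fun w _ => Real.negMulLog_nonneg measureReal_nonneg measureReal_le_one)

/-- the set of the names of the points with period at most `p` has bounded size -/
lemma names_card_le {k : ℕ} (P : X → Fin k) (p n : ℕ) (S : Finset (Fin n → Fin k))
    (hS : ∀ w ∈ S, ∃ x, (∃ m < p, T^[m + 1] x = x) ∧ ∀ i : Fin n, P (T^[(i : ℕ)] x) = w i) :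
    S.card ≤ ∑ m ∈ Finset.range p, k ^ (m + 1) := by
  classical
  let g : (m : ℕ) → (Fin (m + 1) → Fin k) → (Fin n → Fin k) := fun m v i =>
    v ⟨(i : ℕ) % (m + 1), Nat.mod_lt _ (Nat.succ_pos m)⟩
  have hsub : S ⊆ (Finset.range p).biUnion (fun m => Finset.univ.image (g m)) := by
    intro w hw
    obtain ⟨x, ⟨m, hm, hx⟩, hname⟩ := hS w hw
    simp only [Finset.mem_biUnion, Finset.mem_range, Finset.mem_image, Finset.mem_univ, true_and]
    refine ⟨m, hm, fun j => P (T^[(j : ℕ)] x), ?_⟩
    funext i
    simp only [g]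
    rw [← hname i]
    congr 1
    have h : IsPeriodicPt T (m + 1) x := hx
    exact h.iterate_mod_apply _
  calc S.card ≤ ((Finset.range p).biUnion (fun m => Finset.univ.image (g m))).card :=
        Finset.card_le_card hsub
    _ ≤ ∑ m ∈ Finset.range p, (Finset.univ.image (g m)).card := Finset.card_biUnion_le
    _ ≤ ∑ m ∈ Finset.range p, k ^ (m + 1) := by
        apply Finset.sum_le_sum
        intro m _
        calc (Finset.univ.image (g m)).card ≤ (Finset.univ : Finset (Fin (m + 1) → Fin k)).card :=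
              Finset.card_image_le
          _ = k ^ (m + 1) := by simp

lemma joinEntropy_le (hT : Measurable T) {k : ℕ} (hk : 0 < k) {P : X → Fin k} (hP : Measurable P)
    (p n : ℕ)
    (A : Set X) (hA : MeasurableSet A) (hAp : ∀ x ∈ A, ∃ m < p, T^[m + 1] x = x) :
    joinEntropy μ T P n ≤
      (∑ m ∈ Finset.range p, (k : ℝ) ^ (m + 1)) + (μ.real Aᶜ * (n * Real.log k) + 1) := by
  classical
  unfold joinEntropy
  -- cells
  let C : (Fin n → Fin k) → Set X := fun w => {x | ∀ i : Fin n, P (T^[(i : ℕ)] x) = w i}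
  have hC : ∀ w, MeasurableSet (C w) := by
    intro w
    have : C w = ⋂ i : Fin n, {x | P (T^[(i : ℕ)] x) = w i} := by
      ext x; simp [C]
    rw [this]
    refine MeasurableSet.iInter (fun i => ?_)
    exact measurableSet_eq_fun (hP.comp (hT.iterate _)) measurable_const
  have hdisj : Pairwise (Disjoint on C) := by
    intro w w' hww
    rw [Function.onFun, Set.disjoint_left]
    intro x hx hx'
    apply hww
    funext i
    rw [← hx i, ← hx' i]
  -- split each cell
  have hsplit : ∀ w, Real.negMulLog (μ.real (C w)) ≤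
      Real.negMulLog (μ.real (C w ∩ A)) + Real.negMulLog (μ.real (C w ∩ Aᶜ)) := by
    intro w
    have h : μ.real (C w) = μ.real (C w ∩ A) + μ.real (C w ∩ Aᶜ) := by
      rw [← measureReal_inter_add_sdiff hA (s := C w)]
      rfl
    rw [h]
    exact negMulLog_add_le measureReal_nonneg measureReal_nonneg
  let S : Finset (Fin n → Fin k) := Finset.univ.filter (fun w => (C w ∩ A).Nonempty)
  have hS : (S.card : ℝ) ≤ ∑ m ∈ Finset.range p, (k : ℝ) ^ (m + 1) := by
    have := names_card_le (T := T) P p n S (by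
      intro w hw
      simp only [S, Finset.mem_filter, Finset.mem_univ, true_and] at hw
      obtain ⟨x, hx1, hx2⟩ := hw
      exact ⟨x, hAp x hx2, hx1⟩)
    exact_mod_cast this
  have h1 : ∑ w, Real.negMulLog (μ.real (C w ∩ A)) ≤ S.card := by
    have : ∀ w, Real.negMulLog (μ.real (C w ∩ A)) ≤ if w ∈ S then (1 : ℝ) else 0 := by
      intro w
      split_ifs with hw
      · have h := negMulLog_le_one_sub (x := μ.real (C w ∩ A)) measureReal_nonneg
        have : 0 ≤ μ.real (C w ∩ A) := measureReal_nonneg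
        linarith
      · have : C w ∩ A = ∅ := by
          by_contra hne
          apply hw
          simp only [S, Finset.mem_filter, Finset.mem_univ, true_and]
          exact Set.nonempty_iff_ne_empty.2 hne
        rw [this]; simp
    calc ∑ w, Real.negMulLog (μ.real (C w ∩ A)) ≤ ∑ w, (if w ∈ S then (1 : ℝ) else 0) :=
          Finset.sum_le_sum (fun w _ => this w)
      _ = S.card := by simp
  have hKpos : (0 : ℝ) < (k : ℝ) ^ n := by positivity
  have h2 : ∑ w, Real.negMulLog (μ.real (C w ∩ Aᶜ)) ≤ μ.real Aᶜ * (n * Real.log k) + 1 := by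
    have hb : ∀ w, Real.negMulLog (μ.real (C w ∩ Aᶜ)) ≤
        μ.real (C w ∩ Aᶜ) * Real.log ((k : ℝ) ^ n) + 1 / (k : ℝ) ^ n :=
      fun w => negMulLog_le_of_pos measureReal_nonneg hKpos
    calc ∑ w, Real.negMulLog (μ.real (C w ∩ Aᶜ))
        ≤ ∑ w, (μ.real (C w ∩ Aᶜ) * Real.log ((k : ℝ) ^ n) + 1 / (k : ℝ) ^ n) :=
          Finset.sum_le_sum (fun w _ => hb w)
      _ = (∑ w, μ.real (C w ∩ Aᶜ)) * Real.log ((k : ℝ) ^ n) + 1 := by
          rw [Finset.sum_add_distrib, ← Finset.sum_mul]
          congr 1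
          simp
          field_simp
      _ ≤ μ.real Aᶜ * (n * Real.log k) + 1 := by
          rw [Real.log_pow]
          have hlog : 0 ≤ (n : ℝ) * Real.log k :=
            mul_nonneg (Nat.cast_nonneg _) (Real.log_natCast_nonneg k)
          have hsum : ∑ w, μ.real (C w ∩ Aᶜ) ≤ μ.real Aᶜ := by
            rw [← measureReal_biUnion_finset]
            · refine measureReal_mono ?_
              intro x hx
              simp only [mem_iUnion] at hx
              obtain ⟨w, _, hx⟩ := hx
              exact hx.2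
            · intro w _ w' _ hww
              exact (hdisj hww).mono inter_subset_left inter_subset_left
            · intro w _
              exact (hC w).inter hA.compl
          have := mul_le_mul_of_nonneg_right hsum hlog
          linarith
  calc ∑ w, Real.negMulLog (μ.real (C w))
      ≤ ∑ w, (Real.negMulLog (μ.real (C w ∩ A)) + Real.negMulLog (μ.real (C w ∩ Aᶜ))) :=
        Finset.sum_le_sum (fun w _ => hsplit w)
    _ = ∑ w, Real.negMulLog (μ.real (C w ∩ A)) + ∑ w, Real.negMulLog (μ.real (C w ∩ Aᶜ)) :=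
        Finset.sum_add_distrib
    _ ≤ _ := by linarith

/-- if almost every point is periodic, the entropy vanishes -/
theorem ksEntropy_eq_zero (hT : Measurable T)
    (hE : ∀ n : ℕ, MeasurableSet {x : X | T^[n + 1] x = x})
    (hper : μ (⋃ n : ℕ, {x : X | T^[n + 1] x = x})ᶜ = 0) : ksEntropy μ T = 0 := by
  classical
  unfold ksEntropy
  rw [← nonpos_iff_eq_zero]
  refine iSup_le fun k => iSup_le fun P => iSup_le fun hP => ?_
  rw [nonpos_iff_eq_zero]
  obtain ⟨x0⟩ : Nonempty X := μ.nonempty_of_neZero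
  have hk : 0 < k := Fin.pos (P x0)
  let E : ℕ → Set X := fun n => {x : X | T^[n + 1] x = x}
  let A : ℕ → Set X := fun p => Set.accumulate E p
  have hAm : ∀ p, MeasurableSet (A p) := by
    intro p
    simp only [A, Set.accumulate_def]
    exact MeasurableSet.iUnion (fun i => MeasurableSet.iUnion (fun _ => hE i))
  have hAp : ∀ p, ∀ x ∈ A p, ∃ m < p + 1, T^[m + 1] x = x := by
    intro p x hx
    rw [Set.mem_accumulate] at hx
    obtain ⟨m, hm, hx⟩ := hx
    exact ⟨m, by omega, hx⟩
  have hunion : μ (⋃ n, E n) = 1 := by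
    rw [← prob_compl_eq_zero_iff (MeasurableSet.iUnion hE)]
    exact hper
  have htend : Tendsto (fun p => μ (A p)) atTop (𝓝 1) := by
    rw [← hunion]
    exact tendsto_measure_iUnion_accumulate
  have htend2 : Tendsto (fun p => μ.real (A p)ᶜ) atTop (𝓝 0) := by
    have h1 : Tendsto (fun p => μ.real (A p)) atTop (𝓝 1) := by
      have h := (ENNReal.tendsto_toReal (by norm_num : (1 : ℝ≥0∞) ≠ ∞)).comp htend
      rw [ENNReal.toReal_one] at h
      exact h
    have h2 : ∀ p, μ.real (A p)ᶜ = 1 - μ.real (A p) := fun p => probReal_compl_eq_one_sub (hAm p)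
    simp only [h2]
    simpa using h1.const_sub 1
  have main : Tendsto (fun n : ℕ => joinEntropy μ T P n / n) atTop (𝓝 0) := by
    rw [Metric.tendsto_atTop]
    intro ε hε
    have hlogk : 0 ≤ Real.log k := Real.log_natCast_nonneg k
    have h3 : Tendsto (fun p => μ.real (A p)ᶜ * Real.log k) atTop (𝓝 0) := by
      simpa using htend2.mul_const (Real.log k)
    obtain ⟨p, hp⟩ := (h3.eventually (gt_mem_nhds (half_pos hε))).exists
    set N : ℝ := (∑ m ∈ Finset.range (p + 1), (k : ℝ) ^ (m + 1)) + 1 with hN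
    have hNpos : 0 < N := by positivity
    obtain ⟨n0, hn0⟩ := exists_nat_gt (2 * N / ε)
    have hn0pos : (0 : ℝ) < n0 := lt_of_le_of_lt (by positivity) hn0
    refine ⟨n0, fun n hn => ?_⟩
    have hn' : (n0 : ℝ) ≤ n := by exact_mod_cast hn
    have hnpos : (0 : ℝ) < n := lt_of_lt_of_le hn0pos hn'
    have hle := joinEntropy_le (μ := μ) hT hk hP (p + 1) n (A p) (hAm p) (hAp p)
    have hnn := joinEntropy_nonneg (μ := μ) (T := T) P n
    rw [Real.dist_eq, sub_zero, abs_of_nonneg (div_nonneg hnn hnpos.le), div_lt_iff₀ hnpos]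
    have h4 : N < ε / 2 * n := by
      have : 2 * N / ε < n := lt_of_lt_of_le hn0 hn'
      rw [div_lt_iff₀ hε] at this
      linarith
    have h5 : μ.real (A p)ᶜ * (n * Real.log k) ≤ ε / 2 * n := by
      have : μ.real (A p)ᶜ * (n * Real.log k) = (μ.real (A p)ᶜ * Real.log k) * n := by ring
      rw [this]
      exact mul_le_mul_of_nonneg_right hp.le hnpos.le
    have h6 : joinEntropy μ T P n ≤ N + μ.real (A p)ᶜ * (n * Real.log k) := by
      rw [hN]; linarith
    linarith
  have main2 : Tendsto (fun n : ℕ => ENNReal.ofReal (joinEntropy μ T P n / n)) atTop (𝓝 0) := by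
    have h := (ENNReal.continuous_ofReal.tendsto 0).comp main
    rw [ENNReal.ofReal_zero] at h
    exact h
  exact main2.limsup_eq

end

end Pool.Agent.Helper45.Graph
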