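import Mathlib

/-!
Kolmogorov-Sinai entropy: definitions.
-/

open MeasureTheory Set Function Filter Topology
open scoped ENNReal

namespace Pool.Agent.Helper45.Graph

/-- Shannon entropy (natural logarithm) of the join `P ∨ T⁻¹P ∨ ⋯ ∨ T^{-(n-1)}P`, where the finite
measurable partition `P` is encoded by a labelling `P : X → Fin k` -/
noncomputable def joinEntropy {X : Type*} [MeasurableSpace X] (μ : Measure X) (T : X → X)
    {k : ℕ} (P : X → Fin k) (n : ℕ) : ℝ :=
  ∑ w : Fin n → Fin k, Real.negMulLog (μ.real {x | ∀ i : Fin n, P (T^[(i : ℕ)] x) = w i})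

/-- Kolmogorov-Sinai entropy of `T` with respect to `μ`: supremum over all finite measurable
partitions `P` of the limit of `H(P ∨ ⋯ ∨ T^{-(n-1)}P) / n` -/
noncomputable def ksEntropy {X : Type*} [MeasurableSpace X] (μ : Measure X) (T : X → X) : ℝ≥0∞ :=
  ⨆ (k : ℕ) (P : X → Fin k) (_ : Measurable P),
    limsup (fun n : ℕ => ENNReal.ofReal (joinEntropy μ T P n / n)) atTop

end Pool.Agent.Helper45.Graph
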