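import Pool.Agent.Helper45.GMeas

/-!
The interval map obtained from the decimation map.
-/

open MeasureTheory Set Function Filter Topology
open scoped ENNReal unitInterval

namespace Pool.Agent.Helper45.Graph

lemma kap_continuous (l : ℕ) : Continuous (kap l) := by
  induction l with
  | zero => exact continuous_const
  | succ l ih =>
    have h : kap (l + 1) = (fun p : ℕ × Fin 3 => 3 * p.1 + flp (Even p.1) p.2) ∘
        (fun z : Om => (kap l z, z l)) := by
      funext z; rfl
    rw [h]
    exact continuous_of_discreteTopology.comp (ih.prodMk (continuous_apply l))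

lemma kap_measurable (l : ℕ) : Measurable (kap l) := (kap_continuous l).measurable

/-- the small bound -/
noncomputable def bb (l : ℕ) : ℝ := (3 : ℝ)⁻¹ ^ (l / 3)

lemma bb_nonneg (l : ℕ) : 0 ≤ bb l := by unfold bb; positivity

lemma bb_tendsto : Tendsto bb atTop (𝓝 0) := by
  have h1 : Tendsto (fun l : ℕ => l / 3) atTop atTop :=
    Nat.tendsto_div_const_atTop (by norm_num)
  have h2 : Tendsto (fun n : ℕ => (3 : ℝ)⁻¹ ^ n) atTop (𝓝 0) :=
    tendsto_pow_atTop_nhds_zero_of_lt_one (by norm_num) (by norm_num)
  exact h2.comp h1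

lemma real_kap_le (l k : ℕ) : Mu.real {z | kap l z = k} ≤ bb l := by
  have h := Mu_kap_le l k
  have h2 : ((3 : ℝ≥0∞)⁻¹ ^ (l / 3)) = ENNReal.ofReal (bb l) := by
    unfold bb
    rw [ENNReal.ofReal_pow (by positivity), ENNReal.ofReal_inv_of_pos (by norm_num)]
    simp
  rw [h2] at h
  exact ENNReal.toReal_le_of_le_ofReal (bb_nonneg l) h

lemma real_kap_ge {l k : ℕ} (hk : k < 3 ^ l) : aa l ≤ Mu.real {z | kap l z = k} := by
  have h := Mu_kap_ge hk
  rw [ENNReal.ofReal_le_iff_le_toReal (measure_ne_top _ _)] at h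
  exact h

/-- distribution function at level `l` -/
noncomputable def FF (l k : ℕ) : ℝ := Mu.real {z | kap l z < k}

lemma FF_succ (l k : ℕ) : FF l (k + 1) = FF l k + Mu.real {z | kap l z = k} := by
  unfold FF
  rw [← measureReal_union]
  · congr 1
    ext z
    simp only [Set.mem_ofPred_eq, mem_union]
    omega
  · rw [Set.disjoint_left]
    intro z hz hz'
    simp only [Set.mem_ofPred_eq] at hz hz'
    omega
  · exact (kap_measurable l) (measurableSet_singleton k)

lemma FF_zero (l : ℕ) : FF l 0 = 0 := by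
  unfold FF
  simp

lemma FF_top (l : ℕ) {k : ℕ} (hk : 3 ^ l ≤ k) : FF l k = 1 := by
  unfold FF
  have : {z | kap l z < k} = univ := by
    ext z
    simp only [Set.mem_ofPred_eq, mem_univ, iff_true]
    exact lt_of_lt_of_le (kap_lt l z) hk
  rw [this]; simp

lemma FF_mono (l : ℕ) : Monotone (FF l) := by
  intro a b hab
  unfold FF
  refine measureReal_mono ?_
  intro z hz
  simp only [Set.mem_ofPred_eq] at hz ⊢
  omega

/-- points strictly to the left of `z` -/
def Lo (z : Om) : Set Om := ⋃ l, {y | kap l y < kap l z}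

/-- the distribution function -/
noncomputable def HH (z : Om) : ℝ := Mu.real (Lo z)

lemma HH_ge (l : ℕ) (z : Om) : FF l (kap l z) ≤ HH z := by
  unfold FF HH
  refine measureReal_mono ?_
  exact subset_iUnion (fun l => {y | kap l y < kap l z}) l

lemma HH_le (l : ℕ) (z : Om) : HH z ≤ FF l (kap l z + 1) := by
  unfold FF HH
  refine measureReal_mono ?_
  intro y hy
  obtain ⟨m, hm⟩ := mem_iUnion.1 hy
  have := kap_le_of_lt (m := l) hm
  simp only [Set.mem_ofPred_eq]
  omega

lemma HH_nonneg (z : Om) : 0 ≤ HH z := measureReal_nonneg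

lemma HH_le_one (z : Om) : HH z ≤ 1 := measureReal_le_one

lemma HH_sep {l : ℕ} {z y : Om} (h : kap l z + 2 ≤ kap l y) : HH z + aa l ≤ HH y := by
  have h1 := HH_ge l y
  have h2 := HH_le l z
  have h3 := FF_mono l h
  have h4 : FF l (kap l z + 2) = FF l (kap l z + 1) + Mu.real {x | kap l x = kap l z + 1} :=
    FF_succ l (kap l z + 1)
  have h5 : aa l ≤ Mu.real {x | kap l x = kap l z + 1} := by
    apply real_kap_ge
    have := kap_lt l y
    omega
  linarith

lemma HH_close {l : ℕ} {z y : Om} (h : kap l z ≤ kap l y + 1) : HH z ≤ HH y + 2 * bb l := by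
  have h1 := HH_ge l y
  have h2 := HH_le l z
  have h3 : FF l (kap l z + 1) ≤ FF l (kap l y + 2) := FF_mono l (by omega)
  have h4 : FF l (kap l y + 2) = FF l (kap l y + 1) + Mu.real {x | kap l x = kap l y + 1} :=
    FF_succ l (kap l y + 1)
  have h5 : FF l (kap l y + 1) = FF l (kap l y) + Mu.real {x | kap l x = kap l y} :=
    FF_succ l (kap l y)
  have h6 := real_kap_le l (kap l y + 1)
  have h7 := real_kap_le l (kap l y)
  linarith

lemma HH_close_abs {l : ℕ} {z y : Om} (h : kap l z ≤ kap l y + 1) (h' : kap l y ≤ kap l z + 1) :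
    |HH z - HH y| ≤ 2 * bb l := by
  have h1 := HH_close h
  have h2 := HH_close h'
  rw [abs_le]
  constructor <;> linarith

lemma HH_continuous : Continuous HH := by
  rw [continuous_iff_continuousAt]
  intro z
  rw [Metric.continuousAt_iff']
  intro ε hε
  have h1 : Tendsto (fun l => 2 * bb l) atTop (𝓝 0) := by
    simpa using bb_tendsto.const_mul 2
  obtain ⟨l, hl⟩ := (h1.eventually (gt_mem_nhds hε)).exists
  have h2 : {y | kap l y = kap l z} ∈ 𝓝 z := by
    have ho : IsOpen (kap l ⁻¹' {kap l z}) :=
      (isOpen_discrete {kap l z}).preimage (kap_continuous l)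
    exact ho.mem_nhds rfl
  filter_upwards [h2] with y hy
  have hy : kap l y = kap l z := hy
  rw [Real.dist_eq]
  exact lt_of_le_of_lt (HH_close_abs (by omega) (by omega)) hl

lemma near_of_HH_eq {z y : Om} (h : HH z = HH y) : Near z y := by
  intro l
  constructor
  · by_contra hc
    have := HH_sep (l := l) (z := y) (y := z) (by omega)
    have := aa_pos l
    linarith
  · by_contra hc
    have := HH_sep (l := l) (z := z) (y := y) (by omega)
    have := aa_pos l
    linarith

lemma HH_eq_of_near {z y : Om} (h : Near z y) : HH z = HH y := by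
  have h1 : Tendsto (fun l => 2 * bb l) atTop (𝓝 0) := by
    simpa using bb_tendsto.const_mul 2
  have h2 : |HH z - HH y| ≤ 0 :=
    ge_of_tendsto' h1 (fun l => HH_close_abs (h l).1 (h l).2)
  have := abs_nonneg (HH z - HH y)
  have h3 : HH z - HH y = 0 := abs_eq_zero.1 (le_antisymm h2 this)
  linarith

lemma near_Dl {z y : Om} (h : Near z y) : Near (Dl z) (Dl y) := by
  rcases near_cases h with rfl | ⟨l, e, h1, h2, h3⟩
  · intro l; omega
  · by_cases hl : l ∈ range sg
    · obtain ⟨j, rfl⟩ := hl
      apply near_of_splitAt (l := j) (e := e)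
      refine ⟨fun i hi => h1 _ (sg_strictMono hi), h2, fun m hm => h3 _ (sg_strictMono hm)⟩
    · have : Dl z = Dl y := by
        funext j
        change z (sg j) = y (sg j)
        rcases lt_trichotomy (sg j) l with hj | hj | hj
        · exact h1 _ hj
        · exact absurd ⟨j, hj⟩ hl
        · rw [(h3 _ hj).1, (h3 _ hj).2]
      rw [this]
      intro l; omega

lemma exists_level {t : ℝ} (h0 : 0 ≤ t) (h1 : t < 1) (l : ℕ) :
    ∃ k < 3 ^ l, FF l k ≤ t ∧ t < FF l (k + 1) := by
  classical
  have hex : ∃ k, t < FF l (k + 1) := ⟨3 ^ l, by rw [FF_top l (by omega)]; exact h1⟩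
  let k := Nat.find hex
  have hk : t < FF l (k + 1) := Nat.find_spec hex
  have hk' : FF l k ≤ t := by
    rcases Nat.eq_zero_or_pos k with h | h
    · rw [h, FF_zero]; exact h0
    · have := Nat.find_min hex (m := k - 1) (by omega)
      rw [Nat.sub_add_cancel h] at this
      linarith
  refine ⟨k, ?_, hk', hk⟩
  by_contra hc
  rw [FF_top l (by omega)] at hk'
  linarith

/-- the parametrisation of the unit interval -/
noncomputable def HI (z : Om) : I := ⟨HH z, HH_nonneg z, HH_le_one z⟩

lemma HI_continuous : Continuous HI := HH_continuous.subtype_mk _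

lemma HI_surj : Surjective HI := by
  have hcl : IsClosed (range HI) := (isCompact_range HI_continuous).isClosed
  have hmem : ∀ t : I, (t : ℝ) < 1 → t ∈ range HI := by
    intro t ht
    rw [← hcl.closure_eq, Metric.mem_closure_iff]
    intro ε hε
    obtain ⟨l, hl⟩ := (bb_tendsto.eventually (gt_mem_nhds hε)).exists
    obtain ⟨k, hk, hk1, hk2⟩ := exists_level t.2.1 ht l
    obtain ⟨z, hz⟩ := kap_surj hk
    refine ⟨HI z, ⟨z, rfl⟩, ?_⟩
    have h1 := HH_ge l z
    have h2 := HH_le l z
    have h3 := FF_succ l k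
    have h4 := real_kap_le l k
    rw [hz] at h1 h2
    rw [Subtype.dist_eq, Real.dist_eq, abs_lt]
    simp only [HI]
    constructor <;> linarith
  intro t
  by_cases ht : (t : ℝ) < 1
  · exact hmem t ht
  · have ht1 : (t : ℝ) = 1 := le_antisymm t.2.2 (not_lt.1 ht)
    rw [← mem_range, ← hcl.closure_eq, Metric.mem_closure_iff]
    intro ε hε
    have hs0 : 0 ≤ max 0 (1 - ε / 2) := le_max_left _ _
    have hs1 : max 0 (1 - ε / 2) < 1 := max_lt (by norm_num) (by linarith)
    refine ⟨⟨max 0 (1 - ε / 2), hs0, hs1.le⟩, hmem _ hs1, ?_⟩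
    rw [Subtype.dist_eq, Real.dist_eq, ht1, abs_lt]
    have := le_max_right 0 (1 - ε / 2)
    constructor <;> simp only <;> linarith

lemma real_HH_le {t : ℝ} (h0 : 0 ≤ t) (h1 : t < 1) : Mu.real {z | HH z ≤ t} = t := by
  have key : ∀ l, |Mu.real {z | HH z ≤ t} - t| ≤ bb l := by
    intro l
    obtain ⟨k, hk, hk1, hk2⟩ := exists_level h0 h1 l
    have h3 := FF_succ l k
    have h4 := real_kap_le l k
    have h5 : FF l k ≤ Mu.real {z | HH z ≤ t} := by
      unfold FF
      refine measureReal_mono ?_
      intro z hz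
      simp only [Set.mem_ofPred_eq] at hz ⊢
      have a1 := HH_le l z
      have a2 : FF l (kap l z + 1) ≤ FF l k := FF_mono l (by omega)
      linarith
    have h6 : Mu.real {z | HH z ≤ t} ≤ FF l (k + 1) := by
      unfold FF
      refine measureReal_mono ?_
      intro z hz
      simp only [Set.mem_ofPred_eq] at hz ⊢
      by_contra hc
      have a1 := HH_ge l z
      have a2 : FF l (k + 1) ≤ FF l (kap l z) := FF_mono l (by omega)
      linarith
    rw [abs_le]
    constructor <;> linarith
  have h2 : |Mu.real {z | HH z ≤ t} - t| ≤ 0 := ge_of_tendsto' bb_tendsto key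
  have := abs_nonneg (Mu.real {z | HH z ≤ t} - t)
  have h3 : Mu.real {z | HH z ≤ t} - t = 0 := abs_eq_zero.1 (le_antisymm h2 this)
  linarith

lemma map_HI : Mu.map HI = (volume : Measure I) := by
  have hm : Measurable HI := HI_continuous.measurable
  have : IsProbabilityMeasure (Mu.map HI) := Measure.isProbabilityMeasure_map hm.aemeasurable
  apply Measure.ext_of_Iic
  intro t
  rw [Measure.map_apply hm measurableSet_Iic, unitInterval.volume_Iic]
  by_cases ht : (t : ℝ) < 1
  · have h : HI ⁻¹' (Iic t) = {z | HH z ≤ t} := by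
      ext z; rfl
    rw [h]
    conv_rhs => rw [← real_HH_le t.2.1 ht]
    simp only [Measure.real]
    rw [ENNReal.ofReal_toReal (measure_ne_top _ _)]
  · have ht1 : (t : ℝ) = 1 := le_antisymm t.2.2 (not_lt.1 ht)
    have h : HI ⁻¹' (Iic t) = univ := by
      ext z
      simp only [mem_preimage, mem_Iic, mem_univ, iff_true]
      exact Subtype.coe_le_coe.1 (by rw [ht1]; exact HH_le_one z)
    rw [h, ht1]
    simp

/-- the interval map -/
noncomputable def ff (x : I) : I := HI (Dl (surjInv HI_surj x))

lemma ff_HI (z : Om) : ff (HI z) = HI (Dl z) := by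
  unfold ff
  have h1 : HI (surjInv HI_surj (HI z)) = HI z := surjInv_eq HI_surj (HI z)
  have h2 : HH (surjInv HI_surj (HI z)) = HH z := by
    have := congrArg (fun t : I => (t : ℝ)) h1
    exact this
  apply Subtype.ext
  exact HH_eq_of_near (near_Dl (near_of_HH_eq h2))

lemma ff_continuous : Continuous ff := by
  have hq : IsQuotientMap HI := IsQuotientMap.of_surjective_continuous HI_surj HI_continuous
  rw [hq.continuous_iff]
  have : ff ∘ HI = HI ∘ Dl := by
    funext z; exact ff_HI z
  rw [this]
  exact HI_continuous.comp Dl_continuous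

lemma ff_iter_HI (k : ℕ) (z : Om) : ff^[k] (HI z) = HI (Dl^[k] z) := by
  induction k generalizing z with
  | zero => rfl
  | succ k ih => rw [iterate_succ_apply, iterate_succ_apply, ff_HI, ih]

lemma ff_measurePreserving : MeasurePreserving ff (volume : Measure I) volume := by
  refine ⟨ff_continuous.measurable, ?_⟩
  rw [← map_HI, Measure.map_map ff_continuous.measurable HI_continuous.measurable]
  have : ff ∘ HI = HI ∘ Dl := by
    funext z; exact ff_HI z
  rw [this, ← Measure.map_map HI_continuous.measurable Dl_continuous.measurable, Mu_inv]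

lemma ff_periodic : volume (⋃ n : ℕ, {x : I | ff^[n + 1] x = x})ᶜ = 0 := by
  have hcl : ∀ n : ℕ, MeasurableSet {x : I | ff^[n + 1] x = x} := fun n =>
    (isClosed_eq (ff_continuous.iterate _) continuous_id).measurableSet
  rw [← map_HI, Measure.map_apply HI_continuous.measurable (MeasurableSet.iUnion hcl).compl]
  apply measure_mono_null _ Mu_Fx
  intro z hz
  simp only [mem_preimage, mem_compl_iff, mem_iUnion, Set.mem_ofPred_eq, not_exists] at hz ⊢
  intro n hn
  apply hz n
  rw [ff_iter_HI]
  congr 1

end Pool.Agent.Helper45.Graph
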