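import Pool.Agent.Helper45.Gray

/-!
The measure on the space of ternary sequences.
-/

open MeasureTheory Set Function
open scoped ENNReal

namespace Pool.Agent.Helper45.Graph

/-- the uniform probability measure on three points -/
noncomputable def unif : Measure (Fin 3) := (3 : ℝ≥0∞)⁻¹ • Measure.count

lemma unif_singleton (a : Fin 3) : unif {a} = (3 : ℝ≥0∞)⁻¹ := by
  simp [unif]

instance : IsProbabilityMeasure unif where
  measure_univ := by
    simp only [unif, Measure.smul_apply, smul_eq_mul]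
    rw [Measure.count_apply MeasurableSet.univ]
    simp
    exact ENNReal.inv_mul_cancel (by norm_num) (by norm_num)

/-- the uniform product measure -/
noncomputable def PP (L : Type) : Measure (L → Fin 3) := Measure.infinitePi (fun _ => unif)

instance (L : Type) : IsProbabilityMeasure (PP L) := by
  unfold PP; infer_instance

lemma PP_agree {L : Type} (s : Finset L) (z0 : L → Fin 3) :
    PP L {z | ∀ i ∈ s, z i = z0 i} = (3 : ℝ≥0∞)⁻¹ ^ s.card := by
  have h : {z : L → Fin 3 | ∀ i ∈ s, z i = z0 i} = Set.pi (s : Set L) (fun i => {z0 i}) := by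
    ext z; simp [Set.pi]
  rw [h, PP, Measure.infinitePi_pi]
  · simp [unif_singleton]
  · intro i _; exact measurableSet_singleton _

lemma PP_map_equiv {L : Type} (e : L ≃ L) : (PP L).map (fun w => w ∘ e) = PP L := by
  refine Measure.eq_infinitePi _ ?_
  intro s t ht
  rw [Measure.map_apply (by fun_prop) (MeasurableSet.pi s.countable_toSet (fun i _ => ht i))]
  have h : (fun w : L → Fin 3 => w ∘ e) ⁻¹' (Set.pi (s : Set L) t) =
      Set.pi ((s.map e.toEmbedding : Finset L) : Set L) (fun j => t (e.symm j)) := by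
    ext w
    simp only [Set.pi, mem_preimage, Set.mem_ofPred_eq, Finset.coe_map, Set.mem_image,
      Finset.mem_coe, comp_apply]
    constructor
    · rintro h j ⟨i, hi, rfl⟩
      change w (e i) ∈ t (e.symm (e i))
      rw [Equiv.symm_apply_apply]
      exact h i hi
    · intro h i hi
      have := h (e i) ⟨i, hi, rfl⟩
      rwa [Equiv.symm_apply_apply] at this
  rw [h, PP, Measure.infinitePi_pi]
  · rw [Finset.prod_map]
    apply Finset.prod_congr rfl
    intro i _
    rw [Equiv.toEmbedding_apply, Equiv.symm_apply_apply]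
  · intro i _; exact ht _

/-- the sparse sequence of indices -/
def sg (j : ℕ) : ℕ := (j + 1) ^ 2

lemma lt_sg (j : ℕ) : j < sg j := by unfold sg; nlinarith

lemma sg_strictMono : StrictMono sg := by
  intro a b h
  unfold sg
  exact Nat.pow_lt_pow_left (by omega) (by norm_num)

lemma sg_inj : Injective sg := sg_strictMono.injective

lemma exists_lab (j : ℕ) : ∃ p : ℕ × ℕ, p.1 ∉ range sg ∧ sg^[p.2] p.1 = j := by
  induction j using Nat.strong_induction_on with
  | _ j ih =>
    by_cases h : j ∈ range sg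
    · obtain ⟨i, rfl⟩ := h
      obtain ⟨p, hp1, hp2⟩ := ih i (lt_sg i)
      exact ⟨(p.1, p.2 + 1), hp1, by rw [iterate_succ_apply', hp2]⟩
    · exact ⟨(j, 0), h, rfl⟩

lemma lab_unique {r r' : ℕ} (hr : r ∉ range sg) (hr' : r' ∉ range sg) :
    ∀ {h h' : ℕ}, sg^[h] r = sg^[h'] r' → r = r' ∧ h = h' := by
  intro h
  induction h with
  | zero =>
    intro h' e
    cases h' with
    | zero => exact ⟨e, rfl⟩
    | succ h' =>
      rw [iterate_succ_apply'] at e
      exact absurd ⟨_, e.symm⟩ hr
  | succ h ih =>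
    intro h' e
    cases h' with
    | zero =>
      rw [iterate_succ_apply'] at e
      exact absurd ⟨_, e⟩ hr'
    | succ h' =>
      rw [iterate_succ_apply', iterate_succ_apply'] at e
      obtain ⟨a, b⟩ := ih (sg_inj e)
      exact ⟨a, by rw [b]⟩

/-- (root, height) of an index with respect to `sg` -/
noncomputable def lab (j : ℕ) : ℕ × ℕ := (exists_lab j).choose

lemma lab_root (j : ℕ) : (lab j).1 ∉ range sg := (exists_lab j).choose_spec.1

lemma lab_iter (j : ℕ) : sg^[(lab j).2] (lab j).1 = j := (exists_lab j).choose_spec.2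

lemma lab_eq {j r h : ℕ} (hr : r ∉ range sg) (e : sg^[h] r = j) : lab j = (r, h) := by
  have := lab_unique (lab_root j) hr ((lab_iter j).trans e.symm)
  exact Prod.ext this.1 this.2

lemma lab_sg (j : ℕ) : lab (sg j) = ((lab j).1, (lab j).2 + 1) :=
  lab_eq (lab_root j) (by rw [iterate_succ_apply', lab_iter])

lemma lab_of_root {r : ℕ} (hr : r ∉ range sg) : lab r = (r, 0) := lab_eq hr rfl

lemma lab_inj : Injective lab := by
  intro i j h
  rw [← lab_iter i, ← lab_iter j, h]

lemma le_iter (h r : ℕ) : h ≤ sg^[h] r := by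
  induction h with
  | zero => exact Nat.zero_le _
  | succ h ih =>
    rw [iterate_succ_apply']
    have := lt_sg (sg^[h] r)
    omega

lemma lab_height_le (j : ℕ) : (lab j).2 ≤ j := by
  have := le_iter (lab j).2 (lab j).1
  rwa [lab_iter] at this

/-- labels modulo the period `n + 1` -/
noncomputable def LL (n j : ℕ) : ℕ × ZMod (n + 1) := ((lab j).1, ((lab j).2 : ZMod (n + 1)))

/-- the rotation of the labels -/
def rotE (n : ℕ) : (ℕ × ZMod (n + 1)) ≃ (ℕ × ZMod (n + 1)) :=
  Equiv.prodCongr (Equiv.refl _) (Equiv.addRight 1)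

lemma LL_sg (n j : ℕ) : LL n (sg j) = rotE n (LL n j) := by
  simp [LL, lab_sg, rotE]

lemma LL_iter (n j k : ℕ) : LL n (sg^[k] j) = ((lab j).1, ((lab j).2 : ZMod (n + 1)) + k) := by
  induction k with
  | zero => simp [LL]
  | succ k ih =>
    rw [iterate_succ_apply', LL_sg, ih]
    simp [rotE, add_assoc]

lemma LL_period (n j : ℕ) : LL n (sg^[n + 1] j) = LL n j := by
  rw [LL_iter]
  have : ((n + 1 : ℕ) : ZMod (n + 1)) = 0 := ZMod.natCast_self (n + 1)
  rw [this, add_zero]
  rfl

lemma LL_injOn (n : ℕ) {i j : ℕ} (hi : i ≤ n) (hj : j ≤ n) (h : LL n i = LL n j) : i = j := by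
  unfold LL at h
  have h1 := congrArg Prod.fst h
  have h2 := congrArg Prod.snd h
  simp only at h1 h2
  rw [ZMod.natCast_eq_natCast_iff'] at h2
  have a1 := lab_height_le i
  have a2 := lab_height_le j
  rw [Nat.mod_eq_of_lt (by omega), Nat.mod_eq_of_lt (by omega)] at h2
  exact lab_inj (Prod.ext h1 h2)

lemma LL_of_root (n : ℕ) {r : ℕ} (hr : r ∉ range sg) : LL n r = (r, 0) := by
  simp [LL, lab_of_root hr]

/-- the decimation map -/
def Dl (z : Om) : Om := fun j => z (sg j)

lemma Dl_continuous : Continuous Dl := by unfold Dl; fun_prop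

lemma Dl_iter (k : ℕ) (z : Om) (j : ℕ) : (Dl^[k] z) j = z (sg^[k] j) := by
  induction k generalizing j with
  | zero => rfl
  | succ k ih =>
    rw [iterate_succ_apply']
    change (Dl^[k] z) (sg j) = _
    rw [ih, iterate_succ_apply]

/-- the coding of a labelling as a sequence -/
noncomputable def cod (n : ℕ) (w : ℕ × ZMod (n + 1) → Fin 3) : Om := fun j => w (LL n j)

lemma cod_measurable (n : ℕ) : Measurable (cod n) := by unfold cod; fun_prop

/-- the measure on sequences with period `n + 1` under decimation -/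
noncomputable def MM (n : ℕ) : Measure Om := (PP (ℕ × ZMod (n + 1))).map (cod n)

instance (n : ℕ) : IsProbabilityMeasure (MM n) :=
  Measure.isProbabilityMeasure_map (cod_measurable n).aemeasurable

lemma MM_inv (n : ℕ) : (MM n).map Dl = MM n := by
  unfold MM
  rw [Measure.map_map Dl_continuous.measurable (cod_measurable n)]
  have h : Dl ∘ cod n = cod n ∘ (fun w => w ∘ rotE n) := by
    funext w j
    simp [Dl, cod, LL_sg]
  rw [h, ← Measure.map_map (cod_measurable n) (by fun_prop), PP_map_equiv]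

/-- the set of points with period `n + 1` -/
def Fx (n : ℕ) : Set Om := {z | Dl^[n + 1] z = z}

lemma Fx_closed (n : ℕ) : IsClosed (Fx n) :=
  isClosed_eq (Dl_continuous.iterate _) continuous_id

lemma cod_mem_Fx (n : ℕ) (w) : cod n w ∈ Fx n := by
  funext j
  rw [Dl_iter]
  change w (LL n (sg^[n + 1] j)) = w (LL n j)
  rw [LL_period]

lemma MM_Fx (n : ℕ) : MM n (Fx n)ᶜ = 0 := by
  unfold MM
  rw [Measure.map_apply (cod_measurable n) (Fx_closed n).measurableSet.compl]
  have : cod n ⁻¹' (Fx n)ᶜ = ∅ := by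
    ext w
    simp [cod_mem_Fx]
  rw [this, measure_empty]

lemma measurableSet_agree (l : ℕ) (z0 : Om) : MeasurableSet {z : Om | ∀ i < l, z i = z0 i} := by
  have : {z : Om | ∀ i < l, z i = z0 i} = ⋂ i ∈ Finset.range l, {z : Om | z i = z0 i} := by
    ext z; simp
  rw [this]
  refine Finset.measurableSet_biInter _ (fun i _ => ?_)
  exact measurableSet_eq_fun (measurable_pi_apply i) measurable_const

lemma MM_cyl_eq {n l : ℕ} (hl : l ≤ n + 1) (z0 : Om) :
    MM n {z | ∀ i < l, z i = z0 i} = (3 : ℝ≥0∞)⁻¹ ^ l := by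
  classical
  unfold MM
  rw [Measure.map_apply (cod_measurable n) (measurableSet_agree l z0)]
  -- a labelling realising `z0`
  have hinj : Set.InjOn (LL n) (Finset.range l : Set ℕ) := by
    intro i hi j hj h
    simp only [Finset.coe_range, mem_Iio] at hi hj
    exact LL_injOn n (by omega) (by omega) h
  let w0 : ℕ × ZMod (n + 1) → Fin 3 := fun p =>
    if h : ∃ i < l, LL n i = p then z0 h.choose else 0
  have hw0 : ∀ i < l, w0 (LL n i) = z0 i := by
    intro i hi
    have h : ∃ i' < l, LL n i' = LL n i := ⟨i, hi, rfl⟩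
    have : h.choose = i := hinj (by simpa using h.choose_spec.1) (by simpa using hi)
      h.choose_spec.2
    simp only [w0, h, dif_pos, this]
  have hset : cod n ⁻¹' {z | ∀ i < l, z i = z0 i} =
      {w | ∀ p ∈ (Finset.range l).image (LL n), w p = w0 p} := by
    ext w
    simp only [mem_preimage, Set.mem_ofPred_eq, cod, Finset.mem_image, Finset.mem_range]
    constructor
    · rintro h p ⟨i, hi, rfl⟩
      rw [h i hi, hw0 i hi]
    · intro h i hi
      rw [h _ ⟨i, hi, rfl⟩, hw0 i hi]
  rw [hset, PP_agree, Finset.card_image_of_injOn hinj, Finset.card_range]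

lemma root_three (i : ℕ) : 3 * i + 2 ∉ range sg := by
  rintro ⟨j, hj⟩
  unfold sg at hj
  have h1 : (j + 1) % 3 = 0 ∨ (j + 1) % 3 = 1 ∨ (j + 1) % 3 = 2 := by omega
  have h2 : ((j + 1) ^ 2) % 3 = 2 := by rw [hj]; omega
  rw [Nat.pow_mod] at h2
  rcases h1 with h | h | h <;> rw [h] at h2 <;> norm_num at h2

lemma MM_cyl_le (n l : ℕ) (z0 : Om) :
    MM n {z | ∀ i < l, z i = z0 i} ≤ (3 : ℝ≥0∞)⁻¹ ^ (l / 3) := by
  classical
  unfold MM
  rw [Measure.map_apply (cod_measurable n) (measurableSet_agree l z0)]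
  let w0 : ℕ × ZMod (n + 1) → Fin 3 := fun p => z0 p.1
  let s : Finset (ℕ × ZMod (n + 1)) := (Finset.range (l / 3)).image (fun i => (3 * i + 2, 0))
  have hs : s.card = l / 3 := by
    rw [Finset.card_image_of_injective, Finset.card_range]
    intro i j h
    have := congrArg Prod.fst h
    simp only at this
    omega
  have hset : cod n ⁻¹' {z | ∀ i < l, z i = z0 i} ⊆ {w | ∀ p ∈ s, w p = w0 p} := by
    intro w hw p hp
    simp only [s, Finset.mem_image, Finset.mem_range] at hp
    obtain ⟨i, hi, rfl⟩ := hp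
    have := hw (3 * i + 2) (by omega)
    simp only [cod, LL_of_root n (root_three i)] at this
    exact this
  calc _ ≤ PP _ {w | ∀ p ∈ s, w p = w0 p} := measure_mono hset
    _ = _ := by rw [PP_agree, hs]

/-- the weights -/
noncomputable def wt (n : ℕ) : ℝ≥0∞ := ENNReal.ofReal (1 / ((n + 1) * (n + 2)))

lemma hasSum_wt : HasSum (fun n : ℕ => (1 : ℝ) / ((n + 1) * (n + 2))) 1 := by
  rw [hasSum_iff_tendsto_nat_of_nonneg (fun n => by positivity)]
  have h : ∀ n : ℕ, ∑ i ∈ Finset.range n, (1 : ℝ) / ((i + 1) * (i + 2)) = 1 - 1 / (n + 1) := by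
    intro n
    induction n with
    | zero => simp
    | succ n ih =>
      rw [Finset.sum_range_succ, ih]
      push_cast
      field_simp
      ring
  simp only [h]
  have := tendsto_one_div_add_atTop_nhds_zero_nat (𝕜 := ℝ)
  simpa using this.const_sub 1

lemma tsum_wt : ∑' n, wt n = 1 := by
  unfold wt
  rw [← ENNReal.ofReal_tsum_of_nonneg (fun n => by positivity) hasSum_wt.summable,
    hasSum_wt.tsum_eq, ENNReal.ofReal_one]

/-- the mixture of all the periodic measures -/
noncomputable def Mu : Measure Om := Measure.sum (fun n => wt n • MM n)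

instance : IsProbabilityMeasure Mu where
  measure_univ := by
    unfold Mu
    rw [Measure.sum_apply _ MeasurableSet.univ]
    simp [tsum_wt]

lemma Mu_inv : Mu.map Dl = Mu := by
  ext s hs
  rw [Measure.map_apply Dl_continuous.measurable hs]
  unfold Mu
  rw [Measure.sum_apply _ hs, Measure.sum_apply _ (Dl_continuous.measurable hs)]
  congr 1
  funext n
  rw [Measure.smul_apply, Measure.smul_apply, ← Measure.map_apply Dl_continuous.measurable hs,
    MM_inv]

lemma Mu_Fx : Mu (⋃ n, Fx n)ᶜ = 0 := by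
  unfold Mu
  rw [Measure.sum_apply _ (MeasurableSet.iUnion (fun n => (Fx_closed n).measurableSet)).compl]
  rw [ENNReal.tsum_eq_zero]
  intro n
  rw [Measure.smul_apply]
  have : MM n (⋃ n, Fx n)ᶜ = 0 := by
    apply measure_mono_null _ (MM_Fx n)
    exact compl_subset_compl.2 (subset_iUnion _ n)
  rw [this]; simp

lemma kap_set_eq (l : ℕ) (z0 : Om) :
    {z | kap l z = kap l z0} = {z : Om | ∀ i < l, z i = z0 i} := by
  ext z
  exact ⟨fun h => kap_inj h, fun h => kap_congr h⟩

/-- the lower bound for the measure of cylinders -/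
noncomputable def aa (l : ℕ) : ℝ := (3 : ℝ)⁻¹ ^ l * (1 / ((l + 1) * (l + 2)))

lemma aa_pos (l : ℕ) : 0 < aa l := by unfold aa; positivity

lemma Mu_kap_ge {l k : ℕ} (hk : k < 3 ^ l) : ENNReal.ofReal (aa l) ≤ Mu {z | kap l z = k} := by
  obtain ⟨z0, rfl⟩ := kap_surj hk
  rw [kap_set_eq]
  unfold Mu
  rw [Measure.sum_apply _ (measurableSet_agree l z0)]
  refine le_trans ?_ (ENNReal.le_tsum l)
  rw [Measure.smul_apply, MM_cyl_eq (by omega), smul_eq_mul, wt, aa, mul_comm,
    ENNReal.ofReal_mul' (by positivity)]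
  gcongr
  rw [ENNReal.ofReal_pow (by positivity), ENNReal.ofReal_inv_of_pos (by norm_num)]
  simp

lemma Mu_kap_le (l k : ℕ) : Mu {z | kap l z = k} ≤ (3 : ℝ≥0∞)⁻¹ ^ (l / 3) := by
  by_cases h : ∃ z0, kap l z0 = k
  · obtain ⟨z0, rfl⟩ := h
    rw [kap_set_eq]
    unfold Mu
    rw [Measure.sum_apply _ (measurableSet_agree l z0)]
    calc ∑' n, (wt n • MM n) {z | ∀ i < l, z i = z0 i}
        ≤ ∑' n, wt n * (3 : ℝ≥0∞)⁻¹ ^ (l / 3) := by
          apply ENNReal.tsum_le_tsum
          intro n
          rw [Measure.smul_apply, smul_eq_mul]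
          gcongr
          exact MM_cyl_le n l z0
      _ = (3 : ℝ≥0∞)⁻¹ ^ (l / 3) := by rw [ENNReal.tsum_mul_right, tsum_wt, one_mul]
  · have : {z | kap l z = k} = ∅ := by
      ext z
      simp only [Set.mem_ofPred_eq, mem_empty_iff_false, iff_false]
      exact fun hz => h ⟨z, hz⟩
    rw [this]; simp

end Pool.Agent.Helper45.Graph
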