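import Mathlib

/-!
Reflected ternary Gray code: combinatorial part.
-/

namespace Pool.Agent.Helper45.Graph

/-- the symbolic space of ternary sequences -/
abbrev Om : Type := ℕ → Fin 3

/-- flip of a ternary digit -/
def flp (b : Prop) [Decidable b] (d : Fin 3) : ℕ := if b then (d : ℕ) else 2 - (d : ℕ)

/-- index of the level `l` interval containing the point with Gray code `z` -/
def kap : ℕ → Om → ℕ
  | 0, _ => 0
  | (l + 1), z => 3 * kap l z + flp (Even (kap l z)) (z l)

lemma flp_le (b : Prop) [Decidable b] (d : Fin 3) : flp b d ≤ 2 := by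
  unfold flp
  split_ifs <;> omega

lemma flp_inj (b : Prop) [Decidable b] {d e : Fin 3} (h : flp b d = flp b e) : d = e := by
  unfold flp at h
  split_ifs at h
  · exact Fin.ext h
  · apply Fin.ext; omega

lemma kap_zero (z : Om) : kap 0 z = 0 := rfl

lemma kap_succ (l : ℕ) (z : Om) :
    kap (l + 1) z = 3 * kap l z + flp (Even (kap l z)) (z l) := rfl

lemma kap_lt (l : ℕ) (z : Om) : kap l z < 3 ^ l := by
  induction l with
  | zero => simp [kap_zero]
  | succ l ih =>
    have := flp_le (Even (kap l z)) (z l)
    rw [kap_succ, pow_succ]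
    omega

lemma kap_congr {l : ℕ} {z y : Om} (h : ∀ i < l, z i = y i) : kap l z = kap l y := by
  induction l with
  | zero => rfl
  | succ l ih =>
    have h1 : kap l z = kap l y := ih (fun i hi => h i (by omega))
    have h2 : z l = y l := h l (by omega)
    simp only [kap_succ, h1, h2]

lemma kap_inj {l : ℕ} {z y : Om} (h : kap l z = kap l y) : ∀ i < l, z i = y i := by
  induction l with
  | zero => intro i hi; omega
  | succ l ih =>
    have a1 := flp_le (Even (kap l z)) (z l)
    have a2 := flp_le (Even (kap l y)) (y l)
    have h' := h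
    rw [kap_succ, kap_succ] at h'
    have h1 : kap l z = kap l y := by omega
    have h2 : flp (Even (kap l z)) (z l) = flp (Even (kap l y)) (y l) := by omega
    intro i hi
    rcases Nat.lt_succ_iff_lt_or_eq.1 hi with hi | rfl
    · exact ih h1 i hi
    · simp only [h1] at h2
      exact flp_inj _ h2

lemma exists_flp (b : Prop) [Decidable b] {t : ℕ} (ht : t < 3) : ∃ d : Fin 3, flp b d = t := by
  unfold flp
  split_ifs
  · exact ⟨⟨t, ht⟩, rfl⟩
  · exact ⟨⟨2 - t, by omega⟩, by simp only; omega⟩

lemma kap_surj {l : ℕ} : ∀ {k : ℕ}, k < 3 ^ l → ∃ z, kap l z = k := by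
  induction l with
  | zero => intro k hk; exact ⟨fun _ => 0, by simp at hk; simp [kap_zero, hk]⟩
  | succ l ih =>
    intro k hk
    have h1 : k / 3 < 3 ^ l := by
      rw [pow_succ] at hk
      omega
    obtain ⟨z, hz⟩ := ih h1
    obtain ⟨d, hd⟩ := exists_flp (Even (kap l z)) (t := k % 3) (by omega)
    refine ⟨Function.update z l d, ?_⟩
    have h2 : kap l (Function.update z l d) = kap l z := by
      apply kap_congr
      intro i hi
      rw [Function.update_of_ne (by omega)]
    have h3 : kap (l + 1) (Function.update z l d) = 3 * (k / 3) + k % 3 := by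
      rw [kap_succ]
      simp only [h2, Function.update_self, hd]
      rw [hz]
    omega

lemma kap_lt_succ {l : ℕ} {z y : Om} (h : kap l z < kap l y) : kap (l + 1) z < kap (l + 1) y := by
  have a1 := flp_le (Even (kap l z)) (z l)
  rw [kap_succ, kap_succ]
  omega

lemma kap_lt_of_le {l m : ℕ} (hlm : l ≤ m) {z y : Om} (h : kap l z < kap l y) :
    kap m z < kap m y := by
  induction m, hlm using Nat.le_induction with
  | base => exact h
  | succ m _ ih => exact kap_lt_succ ih

lemma kap_le_of_lt {l m : ℕ} {z y : Om} (h : kap l z < kap l y) : kap m z ≤ kap m y := by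
  rcases le_total l m with hlm | hlm
  · exact (kap_lt_of_le hlm h).le
  · by_contra hc
    push Not at hc
    have := kap_lt_of_le hlm hc
    omega

/-- two sequences are `Near` if their level `l` intervals are equal or adjacent for each `l` -/
def Near (z y : Om) : Prop := ∀ l, kap l z ≤ kap l y + 1 ∧ kap l y ≤ kap l z + 1

lemma Near.symm {z y : Om} (h : Near z y) : Near y z := fun l => ⟨(h l).2, (h l).1⟩

/-- the compatible triples: (digit, digit, tail) -/
def Cpt (i j e : Fin 3) : Prop :=
  (i = 0 ∧ j = 1 ∧ e = 2) ∨ (i = 1 ∧ j = 0 ∧ e = 2) ∨ (i = 1 ∧ j = 2 ∧ e = 0) ∨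
    (i = 2 ∧ j = 1 ∧ e = 0)

/-- `z` and `y` agree below `l`, then split in a compatible way -/
def SplitAt (l : ℕ) (z y : Om) (e : Fin 3) : Prop :=
  (∀ i < l, z i = y i) ∧ Cpt (z l) (y l) e ∧ (∀ m, l < m → z m = e ∧ y m = e)

instance (i j e : Fin 3) : Decidable (Cpt i j e) := by unfold Cpt; infer_instance

lemma cpt_even : ∀ a b : Fin 3, (b : ℕ) = a + 1 → Cpt a b (if (a : ℕ) % 2 = 0 then 2 else 0) := by
  decide

lemma cpt_odd : ∀ a b : Fin 3, 2 - (b : ℕ) = 2 - a + 1 →
    Cpt a b (if (a : ℕ) % 2 = 1 then 2 else 0) := by
  decide

lemma near_of_splitAt {l : ℕ} {z y : Om} {e : Fin 3} (h : SplitAt l z y e) : Near z y := by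
  obtain ⟨h1, h2, h3⟩ := h
  have key : ∀ m, l < m →
      (kap m y = kap m z + 1 ∧ (Even (kap m z) ↔ e = 2)) ∨
      (kap m z = kap m y + 1 ∧ (Even (kap m y) ↔ e = 2)) := by
    intro m hm
    induction m, hm using Nat.le_induction with
    | base =>
      have hk : kap l z = kap l y := kap_congr h1
      rw [Nat.succ_eq_add_one, kap_succ, kap_succ, ← hk]
      rcases Nat.even_or_odd (kap l z) with he | ho
      · simp only [flp, he, if_true]
        obtain ⟨c, hc⟩ := he
        rcases h2 with ⟨a, b, c'⟩ | ⟨a, b, c'⟩ | ⟨a, b, c'⟩ | ⟨a, b, c'⟩ <;>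
          rw [a, b, c', hc] <;> simp [Nat.even_iff] <;> omega
      · have hne : ¬ Even (kap l z) := Nat.not_even_iff_odd.2 ho
        simp only [flp, hne, if_false]
        obtain ⟨c, hc⟩ := ho
        rcases h2 with ⟨a, b, c'⟩ | ⟨a, b, c'⟩ | ⟨a, b, c'⟩ | ⟨a, b, c'⟩ <;>
          rw [a, b, c', hc] <;> simp [Nat.even_iff] <;> omega
    | succ m hm ih =>
      have e0 : e = 0 ∨ e = 2 := by
        rcases h2 with ⟨a, b, c'⟩ | ⟨a, b, c'⟩ | ⟨a, b, c'⟩ | ⟨a, b, c'⟩ <;> simp [c']
      obtain ⟨hz, hy⟩ := h3 m hm
      rw [kap_succ, kap_succ, hz, hy]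
      rcases ih with ⟨i1, i2⟩ | ⟨i1, i2⟩
      · left
        rw [i1]
        rcases e0 with rfl | rfl
        · have : ¬ Even (kap m z) := by rw [i2]; decide
          have h' : Even (kap m z + 1) := by
            rw [Nat.even_add_one]; exact this
          simp only [flp, this, h', if_true, if_false]
          rw [Nat.not_even_iff_odd] at this
          obtain ⟨c, hc⟩ := this
          rw [hc]
          simp [Nat.even_iff]
          omega
        · have : Even (kap m z) := by rw [i2]
          have h' : ¬ Even (kap m z + 1) := by
            rw [Nat.even_add_one]; exact not_not.2 this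
          simp only [flp, this, h', if_true, if_false]
          obtain ⟨c, hc⟩ := this
          rw [hc]
          simp [Nat.even_iff]
          omega
      · right
        rw [i1]
        rcases e0 with rfl | rfl
        · have : ¬ Even (kap m y) := by rw [i2]; decide
          have h' : Even (kap m y + 1) := by
            rw [Nat.even_add_one]; exact this
          simp only [flp, this, h', if_true, if_false]
          rw [Nat.not_even_iff_odd] at this
          obtain ⟨c, hc⟩ := this
          rw [hc]
          simp [Nat.even_iff]
          omega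
        · have : Even (kap m y) := by rw [i2]
          have h' : ¬ Even (kap m y + 1) := by
            rw [Nat.even_add_one]; exact not_not.2 this
          simp only [flp, this, h', if_true, if_false]
          obtain ⟨c, hc⟩ := this
          rw [hc]
          simp [Nat.even_iff]
          omega
  intro m
  rcases lt_or_ge l m with hm | hm
  · rcases key m hm with ⟨a, _⟩ | ⟨a, _⟩ <;> omega
  · have : kap m z = kap m y := kap_congr (fun i hi => h1 i (by omega))
    omega

/-- classification of near pairs -/
lemma near_cases {z y : Om} (h : Near z y) : z = y ∨ ∃ l e, SplitAt l z y e := by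
  classical
  by_cases hzy : z = y
  · exact Or.inl hzy
  right
  have hex : ∃ l, z l ≠ y l := by
    by_contra hc
    push Not at hc
    exact hzy (funext hc)
  -- first difference
  let l := Nat.find hex
  have hl : z l ≠ y l := Nat.find_spec hex
  have hlt : ∀ i < l, z i = y i := fun i hi => by
    have := Nat.find_min hex hi
    push Not at this
    exact this
  have hk : kap l z = kap l y := kap_congr hlt
  -- after the first difference, the indices differ by exactly one
  have hne : ∀ m, l < m → kap m z ≠ kap m y := fun m hm hc => hl (kap_inj hc l hm)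
  -- wlog direction
  have main : ∀ {z y : Om}, Near z y → (∀ i < l, z i = y i) → kap l z = kap l y →
      kap (l + 1) z < kap (l + 1) y → ∃ e, SplitAt l z y e := by
    intro z y h hlt hk hlt1
    have hdiff : ∀ m, l < m → kap m y = kap m z + 1 := by
      intro m hm
      have h1 := kap_lt_of_le (l := l + 1) (m := m) hm hlt1
      have h2 := (h m).2
      omega
    have tail : ∀ m, l < m → (Even (kap m z) → z m = 2 ∧ y m = 2) ∧
        (¬ Even (kap m z) → z m = 0 ∧ y m = 0) := by
      intro m hm
      have h1 := hdiff m hm
      have h2 := hdiff (m + 1) (by omega)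
      rw [kap_succ, kap_succ, h1] at h2
      have a1 := flp_le (Even (kap m z)) (z m)
      have a2 := flp_le (Even (kap m z + 1)) (y m)
      have h3 : flp (Even (kap m z)) (z m) = 2 ∧ flp (Even (kap m z + 1)) (y m) = 0 := by omega
      obtain ⟨h3, h4⟩ := h3
      constructor
      · intro he
        have h' : ¬ Even (kap m z + 1) := by
          rw [Nat.even_add_one]; exact not_not.2 he
        simp only [flp, he, h', if_true, if_false] at h3 h4
        constructor <;> apply Fin.ext <;> simp <;> omega
      · intro he
        have h' : Even (kap m z + 1) := by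
          rw [Nat.even_add_one]; exact he
        simp only [flp, he, h', if_true, if_false] at h3 h4
        constructor <;> apply Fin.ext <;> simp <;> omega
    have const : ∀ m, l < m → (Even (kap m z) ↔ Even (kap (l + 1) z)) := by
      intro m hm
      induction m, hm using Nat.le_induction with
      | base => rfl
      | succ m hm ih =>
        rw [← ih, kap_succ]
        obtain ⟨t1, t2⟩ := tail m hm
        by_cases he : Even (kap m z)
        · simp only [flp, he, if_true, (t1 he).1]
          obtain ⟨c, hc⟩ := he
          rw [hc]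
          simp [Nat.even_iff]
          omega
        · simp only [flp, he, if_false, (t2 he).1]
          rw [Nat.not_even_iff_odd] at he
          obtain ⟨c, hc⟩ := he
          rw [hc]
          simp [Nat.even_iff]
          omega
    have h1 := hdiff (l + 1) (by omega)
    refine ⟨if Even (kap (l + 1) z) then 2 else 0, hlt, ?_, ?_⟩
    · rw [kap_succ, kap_succ, ← hk] at h1
      rw [kap_succ]
      rcases Nat.even_or_odd (kap l z) with he | ho
      · have hev : Even (3 * kap l z + flp (Even (kap l z)) (z l)) ↔ ((z l : ℕ)) % 2 = 0 := by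
          simp only [flp, he, if_true]
          obtain ⟨c, hc⟩ := he
          rw [hc, Nat.even_iff]
          omega
        simp only [hev]
        apply cpt_even
        simp only [flp, he, if_true] at h1
        omega
      · have hne : ¬ Even (kap l z) := Nat.not_even_iff_odd.2 ho
        have hev : Even (3 * kap l z + flp (Even (kap l z)) (z l)) ↔ ((z l : ℕ)) % 2 = 1 := by
          simp only [flp, hne, if_false]
          obtain ⟨c, hc⟩ := ho
          rw [hc, Nat.even_iff]
          have := (z l).isLt
          omega
        simp only [hev]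
        apply cpt_odd
        simp only [flp, hne, if_false] at h1
        omega
    · intro m hm
      obtain ⟨t1, t2⟩ := tail m hm
      have hc := const m hm
      simp only [← hc]
      by_cases he : Even (kap m z)
      · simpa [he] using t1 he
      · simpa [he] using t2 he
  rcases lt_or_gt_of_ne (hne (l + 1) (by omega)) with hlt1 | hlt1
  · obtain ⟨e, he⟩ := main h hlt hk hlt1
    exact ⟨l, e, he⟩
  · obtain ⟨e, he⟩ := main h.symm (fun i hi => (hlt i hi).symm) hk.symm hlt1
    refine ⟨l, e, hlt, ?_, fun m hm => ⟨(he.2.2 m hm).2, (he.2.2 m hm).1⟩⟩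
    have := he.2.1
    unfold Cpt at this ⊢
    tauto

end Pool.Agent.Helper45.Graph
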